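import Mathlib
import Pool.Agent.Y166.SM.Stm
import Pool.Agent.Y166.GM.Cone

/-!
# Affine charts of the variety of symmetric matrices, and its closedness
-/

set_option autoImplicit false
set_option linter.unusedSectionVars false
set_option linter.deprecated false

namespace Pool.Agent.Y894.SM

open MvPolynomial Pool.Agent.Y166.GM Pool.Agent.Y166.SM

section
variable {A : Type} [CommRing A]

/-- The basis of the subspace in the chart given by the index `j0`. -/
def Nj (j0 : S3 × S2) (v : S3 × S2 → A) : Matrix (Fin 6) (Fin 3) A :=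
  Matrix.of fun u r => v (Function.update j0.1 r u, j0.2)

/-- The quadratic form in the chart given by the index `j0`. -/
def Aj (j0 : S3 × S2) (v : S3 × S2 → A) : Matrix (Fin 3) (Fin 3) A :=
  Matrix.of fun r s => v (j0.1, (j0.1 r, j0.1 s))

end

section
variable {k : Type} [Field k]

theorem submatrix_update (C : Matrix (Fin 6) (Fin 3) k) (a : S3) (r : Fin 3) (u : Fin 6) :
    C.submatrix (Function.update a r u) id = (C.submatrix a id).updateRow r (C u) := by
  ext i j
  by_cases h : i = r
  · subst h
    simp [Matrix.updateRow_self]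
  · simp [Matrix.updateRow_ne h, Function.update_of_ne h]

theorem submatrix_sandwich (C : Matrix (Fin 6) (Fin 3) k) (Q : Matrix (Fin 3) (Fin 3) k)
    (a b : S3) : (C * Q * C.transpose).submatrix a b =
      C.submatrix a id * Q * (C.submatrix b id).transpose := by
  ext i j
  simp [Matrix.mul_apply]

theorem chart_gen {x : PP k (S3 × S2)} (hx : x ∈ Xsym k)
    {V : S3 × S2 → k} (hV : Rep x V) (j0 : S3 × S2) (h0 : V j0 ≠ 0) :
    (Aj j0 fun j => V j / V j0).transpose = (Aj j0 fun j => V j / V j0) ∧
    ∀ j, V j / V j0 = pt (Nj j0 fun j => V j / V j0) (Aj j0 fun j => V j / V j0) j := by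
  obtain ⟨C, Q, hQ, hrep⟩ := hx
  obtain ⟨c, hc, hVc⟩ := hrep.exists_smul hV
  set U : Matrix (Fin 3) (Fin 3) k := C.submatrix j0.1 id with hU
  set T : Matrix (Fin 6) (Fin 6) k := C * Q * C.transpose with hT
  have hVj : ∀ j, V j = c * ((C.submatrix j.1 id).det * T j.2.1 j.2.2) := by
    intro j
    rw [hVc]
    rfl
  have hV0 : V j0 = c * (U.det * T j0.2.1 j0.2.2) := hVj j0
  have hd : U.det ≠ 0 := by
    intro h
    apply h0
    rw [hV0, h, zero_mul, mul_zero]
  have he : T j0.2.1 j0.2.2 ≠ 0 := by
    intro h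
    apply h0
    rw [hV0, h, mul_zero, mul_zero]
  have hTs : T.transpose = T := by
    rw [hT, Matrix.transpose_mul, Matrix.transpose_mul, Matrix.transpose_transpose, hQ,
      Matrix.mul_assoc]
  have hNU : Nj j0 (fun j => V j / V j0) * U = C := by
    ext u s
    rw [Matrix.mul_apply]
    have h1 : ∀ r, Nj j0 (fun j => V j / V j0) u r = U.det⁻¹ * (U.transpose.cramer (C u)) r := by
      intro r
      rw [Matrix.cramer_transpose_apply]
      show V (Function.update j0.1 r u, j0.2) / V j0 = _
      rw [hVj, hV0, submatrix_update, ← hU]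
      field_simp
    have h2 := congrFun (Matrix.mulVec_cramer U.transpose (C u)) s
    rw [Matrix.mulVec, dotProduct, Matrix.det_transpose] at h2
    have h3 : ∑ r, Nj j0 (fun j => V j / V j0) u r * U r s =
        U.det⁻¹ * ∑ r, U.transpose s r * (U.transpose.cramer (C u)) r := by
      rw [Finset.mul_sum]
      refine Finset.sum_congr rfl fun r _ => ?_
      rw [h1, Matrix.transpose_apply]
      ring
    rw [h3, h2, Pi.smul_apply, smul_eq_mul, inv_mul_cancel_left₀ hd]
  have hA : Aj j0 (fun j => V j / V j0) = (T j0.2.1 j0.2.2)⁻¹ • (U * Q * U.transpose) := by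
    rw [hU, ← submatrix_sandwich, ← hT]
    ext r s
    show V (j0.1, (j0.1 r, j0.1 s)) / V j0 = (T j0.2.1 j0.2.2)⁻¹ * T (j0.1 r) (j0.1 s)
    rw [hVj, hV0]
    show c * (U.det * T (j0.1 r) (j0.1 s)) / (c * (U.det * T j0.2.1 j0.2.2)) = _
    field_simp
  refine ⟨?_, ?_⟩
  · rw [hA, Matrix.transpose_smul, Matrix.transpose_mul, Matrix.transpose_mul,
      Matrix.transpose_transpose, hQ, Matrix.mul_assoc]
  · intro j
    have h1 : (Nj j0 (fun j => V j / V j0)) * (Aj j0 fun j => V j / V j0) *
        (Nj j0 (fun j => V j / V j0)).transpose = (T j0.2.1 j0.2.2)⁻¹ • T := by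
      rw [hA, Matrix.mul_smul, Matrix.smul_mul]
      congr 1
      rw [hT]
      conv_rhs => rw [← hNU]
      rw [Matrix.transpose_mul]
      simp only [Matrix.mul_assoc]
    have h2 : ((Nj j0 (fun j => V j / V j0)).submatrix j.1 id).det * U.det =
        (C.submatrix j.1 id).det := by
      rw [← Matrix.det_mul]
      congr 1
      conv_rhs => rw [← hNU]
      ext i s
      simp [Matrix.mul_apply]
    unfold pt
    rw [h1]
    generalize ((Nj j0 (fun j => V j / V j0)).submatrix j.1 id).det = D at h2 ⊢
    rw [hVj, hV0, ← h2, Matrix.smul_apply, smul_eq_mul]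
    field_simp

theorem stmClosed : StmClosed := by
  intro k _
  rw [← isOpen_compl_iff, isOpen_iff_forall_mem_open]
  intro p hp
  have hrep := rep_rep p
  obtain ⟨j0, hj0⟩ : ∃ j0, p.rep j0 ≠ 0 := by
    by_contra hcon
    push Not at hcon
    exact hrep.ne_zero (funext hcon)
  -- a polynomial equation valid on `Xsym` which fails at `p`
  obtain ⟨G, hG0, hG⟩ : ∃ G : MvPolynomial (S3 × S2) k,
      (aeval (fun j => p.rep j / p.rep j0) G ≠ 0) ∧
      ∀ x ∈ Xsym k, ∀ V : S3 × S2 → k, Rep x V → V j0 ≠ 0 →
        aeval (fun j => V j / V j0) G = 0 := by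
    have hpt : ∀ (v : S3 × S2 → k) (j : S3 × S2),
        aeval v (pt (Nj j0 (X : S3 × S2 → MvPolynomial (S3 × S2) k)) (Aj j0 X) j) =
          pt (Nj j0 v) (Aj j0 v) j := by
      intro v j
      unfold pt
      rw [map_mul, AlgHom.map_det]
      congr 1
      · congr 1
        ext r s
        simp [Nj]
      · simp only [Matrix.mul_apply, map_sum, map_mul, Matrix.transpose_apply, Nj, Aj,
          Matrix.of_apply, aeval_X]
    by_contra hcon
    push Not at hcon
    have hsym : (Aj j0 fun j => p.rep j / p.rep j0).transpose =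
        (Aj j0 fun j => p.rep j / p.rep j0) := by
      ext r s
      by_contra hne
      obtain ⟨x, hx, V, hV, hV0, hne0⟩ := hcon
        (X (j0.1, (j0.1 s, j0.1 r)) - X (j0.1, (j0.1 r, j0.1 s))) (by
          rw [map_sub, aeval_X, aeval_X]
          exact sub_ne_zero.2 hne)
      apply hne0
      rw [map_sub, aeval_X, aeval_X, sub_eq_zero]
      exact congrFun (congrFun (chart_gen hx hV j0 hV0).1 r) s
    have heq : ∀ j, p.rep j / p.rep j0 = pt (Nj j0 fun j => p.rep j / p.rep j0)
        (Aj j0 fun j => p.rep j / p.rep j0) j := by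
      intro j
      by_contra hne
      obtain ⟨x, hx, V, hV, hV0, hne0⟩ := hcon
        (X j - pt (Nj j0 (X : S3 × S2 → MvPolynomial (S3 × S2) k)) (Aj j0 X) j) (by
          rw [map_sub, aeval_X, hpt]
          exact sub_ne_zero.2 hne)
      apply hne0
      rw [map_sub, aeval_X, hpt, sub_eq_zero]
      exact (chart_gen hx hV j0 hV0).2 j
    apply hp
    refine ⟨Nj j0 fun j => p.rep j / p.rep j0, Aj j0 fun j => p.rep j / p.rep j0, hsym, ?_⟩
    have h1 : pt (Nj j0 fun j => p.rep j / p.rep j0) (Aj j0 fun j => p.rep j / p.rep j0) =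
        (p.rep j0)⁻¹ • p.rep := by
      funext j
      rw [← heq j, Pi.smul_apply, smul_eq_mul, div_eq_inv_mul]
    rw [h1]
    exact hrep.smul (inv_ne_zero hj0)
  obtain ⟨Gh, hGh, hGh2⟩ := exists_homog G le_rfl j0 (id : S3 × S2 → S3 × S2)
  have hhom : (X j0 * Gh : MvPolynomial (S3 × S2) k).IsHomogeneous (1 + G.totalDegree) :=
    (isHomogeneous_X k j0).mul hGh
  refine ⟨{q | eval q.rep (X j0 * Gh) ≠ 0}, ?_, isOpen_basic hhom, ?_⟩
  · intro q hq hqX
    apply hq
    rw [map_mul, eval_X]
    by_cases hq0 : q.rep j0 = 0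
    · rw [hq0, zero_mul]
    · have h1 := hGh2 k q.rep hq0
      rw [aeval_eq_eval] at h1
      have h2 := hG q hqX q.rep (rep_rep q) hq0
      have h3 : eval q.rep Gh = 0 := by
        have h4 : (eval q.rep) Gh = (q.rep j0) ^ G.totalDegree *
          aeval (fun i => q.rep (id i) / q.rep j0) G := h1
        rw [h4]
        have h5 : aeval (fun i => q.rep (id i) / q.rep j0) G = 0 := h2
        rw [h5, mul_zero]
      rw [h3, mul_zero]
  · show eval p.rep (X j0 * Gh) ≠ 0
    rw [map_mul, eval_X]
    refine mul_ne_zero hj0 ?_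
    have h1 := hGh2 k p.rep hj0
    rw [aeval_eq_eval] at h1
    have h4 : (eval p.rep) Gh = (p.rep j0) ^ G.totalDegree *
      aeval (fun i => p.rep (id i) / p.rep j0) G := h1
    rw [h4]
    exact mul_ne_zero (pow_ne_zero _ hj0) hG0

theorem rep_zero {x : PP k (S3 × S2)} (hx : x ∈ Xsym k)
    {V : S3 × S2 → k} (hV : Rep x V) (j : S3 × S2) {i i' : Fin 3} (hi : i ≠ i')
    (h : j.1 i = j.1 i') : V j = 0 := by
  obtain ⟨C, Q, hQ, hrep⟩ := hx
  obtain ⟨c, hc, hVc⟩ := hrep.exists_smul hV
  rw [hVc]
  show c * ((C.submatrix j.1 id).det * _) = 0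
  have h1 : (C.submatrix j.1 id).det = 0 := by
    apply Matrix.det_zero_of_row_eq hi
    funext s
    rw [Matrix.submatrix_apply, Matrix.submatrix_apply, h]
  rw [h1, zero_mul, mul_zero]

theorem stmChart : StmChart := by
  intro k _ x hx V hV h0 j
  obtain ⟨h1, h2⟩ := chart_gen hx hV jz h0
  have h3 := h2 j
  rw [div_eq_iff h0, mul_comm] at h3
  rw [h3]
  have hone : V jz / V jz = 1 := div_self h0
  have hN : (Nj jz fun j => V j / V jz) = Nmat fun i => V (rrX i) / V jz := by
    have hdiag : ∀ r : Fin 3, Nj jz (fun j => V j / V jz) (up r) r = 1 := by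
      intro r
      have h4 : (Function.update jz.1 r (up r), jz.2) = jz := by
        have h5 : Function.update jz.1 r (up r) = jz.1 := by
          rw [Function.update_eq_self_iff]
          fin_cases r <;> rfl
        rw [h5]
      show V (Function.update jz.1 r (up r), jz.2) / V jz = 1
      rw [h4, hone]
    have hoff : ∀ r s : Fin 3, r ≠ s → Nj jz (fun j => V j / V jz) (up s) r = 0 := by
      intro r s hrs
      have h4 : V (Function.update jz.1 r (up s), jz.2) = 0 := by
        apply rep_zero hx hV (Function.update jz.1 r (up s), jz.2) hrs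
        show Function.update jz.1 r (up s) r = Function.update jz.1 r (up s) s
        rw [Function.update_self, Function.update_of_ne hrs.symm]
        fin_cases s <;> rfl
      show V (Function.update jz.1 r (up s), jz.2) / V jz = 0
      rw [h4, zero_div]
    ext u r
    fin_cases u
    · fin_cases r
      · exact hdiag 0
      · exact hoff 1 0 (by decide)
      · exact hoff 2 0 (by decide)
    · fin_cases r
      · exact hoff 0 1 (by decide)
      · exact hdiag 1
      · exact hoff 2 1 (by decide)
    · fin_cases r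
      · exact hoff 0 2 (by decide)
      · exact hoff 1 2 (by decide)
      · exact hdiag 2
    · fin_cases r <;> rfl
    · fin_cases r <;> rfl
    · fin_cases r <;> rfl
  have hA : (Aj jz fun j => V j / V jz) = Amat fun i => V (rrX i) / V jz := by
    have hs : ∀ r s, Aj jz (fun j => V j / V jz) r s = Aj jz (fun j => V j / V jz) s r := by
      intro r s
      exact congrFun (congrFun h1.symm r) s
    have h4 : Aj jz (fun j => V j / V jz) 0 0 = 1 := hone
    ext r s
    fin_cases r
    · fin_cases s
      · exact h4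
      · rfl
      · rfl
    · fin_cases s
      · exact hs 1 0
      · rfl
      · rfl
    · fin_cases s
      · exact hs 2 0
      · exact hs 2 1
      · rfl
  rw [hN, hA]

end

end Pool.Agent.Y894.SM
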